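import Pool.Agent.N396.ZK.Stm2

/-!
# Assembly of the matrix theorem: linear programming bound (subtask ZK2/LPZ)
-/

set_option autoImplicit false

namespace Pool.Agent.N655.ZK

open Finset Classical Pool.Agent.N396.ZK

theorem D_pow (s : ℕ) (μ : ℝ) (hμ : 0 ≤ μ) (hs : 1 ≤ s) (n : ℝ) (hn : 0 < n) :
    (μ ^ (1 / (s : ℝ)) * n ^ (1 - 1 / (s : ℝ))) ^ s = μ * n ^ (s - 1) := by
  have hs0 : (s : ℝ) ≠ 0 := by
    have : s ≠ 0 := by omega
    exact_mod_cast this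
  rw [mul_pow]
  congr 1
  · rw [one_div]
    exact Real.rpow_inv_natCast_pow hμ (by omega)
  · rw [← Real.rpow_natCast (n ^ (1 - 1 / (s : ℝ))) s, ← Real.rpow_mul hn.le]
    have : (1 - 1 / (s : ℝ)) * s = ((s - 1 : ℕ) : ℝ) := by
      rw [Nat.cast_sub hs]
      field_simp
      push_cast
      ring
    rw [this, Real.rpow_natCast]

theorem mem_rws {α β : Type} {R : α → β → Prop} {P : Finset α} {B : Finset β} {x : α} :
    x ∈ rws R P B ↔ x ∈ P ∧ ∀ y ∈ B, R x y := by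
  simp only [rws, mem_filter]

theorem mem_com {α β : Type} {R : α → β → Prop} {Q : Finset β} {A : Finset α} {y : β} :
    y ∈ com R Q A ↔ y ∈ Q ∧ ∀ x ∈ A, R x y := by
  simp only [com, mem_filter]

theorem continuous_lp (k X : ℕ) (a : ℕ → ℝ) :
    Continuous fun μ : ℝ => ∑ j ∈ Icc 1 k, a j * ch μ j X := by
  unfold ch
  refine continuous_finsetSum _ fun j _ => ?_
  refine continuous_const.mul (continuous_finsetSum _ fun i _ => ?_)
  fun_prop

/-- the linear programme is solvable for slightly smaller `μ` -/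
theorem lp_open {k M : ℕ} {μ : ℝ} {a : ℕ → ℝ} (hμ : 0 < μ) (h : LP k M μ a) :
    ∃ μ1 : ℝ, 0 < μ1 ∧ μ1 < μ ∧ LP k M μ1 a := by
  have hev : ∀ᶠ ν in nhds μ, ∀ X ∈ range (M + 1), ∑ j ∈ Icc 1 k, a j * ch ν j X < 0 := by
    rw [Filter.eventually_all_finset]
    intro X hX
    have hc := (continuous_lp k X a).continuousAt (x := μ)
    exact hc.eventually (Iio_mem_nhds (h.2 X (by rw [mem_range] at hX; omega)))
  rw [Metric.eventually_nhds_iff] at hev
  obtain ⟨ε, hε, hball⟩ := hev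
  refine ⟨μ - min (ε / 2) (μ / 2), ?_, ?_, h.1, ?_⟩
  · have := min_le_right (ε / 2) (μ / 2)
    linarith
  · have : 0 < min (ε / 2) (μ / 2) := lt_min (by linarith) (by linarith)
    linarith
  · intro X hX
    have h0 : 0 < min (ε / 2) (μ / 2) := lt_min (by linarith) (by linarith)
    have h1 := min_le_left (ε / 2) (μ / 2)
    refine hball ?_ X (by rw [mem_range]; omega)
    rw [Real.dist_eq, sub_sub_cancel_left, abs_neg, abs_of_pos h0]
    linarith

theorem lpz (hcore : StmCore2) (hkst : StmKST) (hsel : StmSel) : StmLPZ := by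
  intro s t k μ a hst hk hks hμ hLP
  obtain ⟨M, hM⟩ : ∃ M : ℕ, M = t - s + k := ⟨_, rfl⟩
  rw [← hM] at hLP
  have hM1 : 1 ≤ M := by omega
  obtain ⟨μ1, hμ1, hμ1μ, hLP1⟩ := lp_open hμ hLP
  obtain ⟨μ2, hμ2d⟩ : ∃ μ2 : ℝ, μ2 = (2 * μ1 + μ) / 3 := ⟨_, rfl⟩
  obtain ⟨μ3, hμ3d⟩ : ∃ μ3 : ℝ, μ3 = (μ1 + 2 * μ) / 3 := ⟨_, rfl⟩
  have h12 : μ1 < μ2 := by rw [hμ2d]; linarith
  have h23 : μ2 < μ3 := by rw [hμ2d, hμ3d]; linarith
  have h3 : μ3 < μ := by rw [hμ3d]; linarith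
  have hμ2 : 0 < μ2 := by linarith
  have hμ3 : 0 < μ3 := by linarith
  have hs2 : 2 ≤ s := by omega
  have hs2r : (2 : ℝ) ≤ s := by exact_mod_cast hs2
  have hs0 : (0 : ℝ) < s := by linarith
  have hsi : 0 < 1 / (s : ℝ) := by positivity
  obtain ⟨Kc, hKc, core⟩ := hcore s k M μ2 μ1 a hs2 hk hM1 hμ1 h12 hLP1
  obtain ⟨c2, hc2d⟩ : ∃ c2 : ℝ, c2 = μ2 ^ (1 / (s : ℝ)) := ⟨_, rfl⟩
  obtain ⟨c3, hc3d⟩ : ∃ c3 : ℝ, c3 = μ3 ^ (1 / (s : ℝ)) := ⟨_, rfl⟩
  obtain ⟨c, hcd⟩ : ∃ c : ℝ, c = μ ^ (1 / (s : ℝ)) := ⟨_, rfl⟩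
  have hc2 : 0 < c2 := by rw [hc2d]; positivity
  have hc3 : 0 < c3 := by rw [hc3d]; positivity
  have hc0 : 0 < c := by rw [hcd]; positivity
  have hc23 : c2 < c3 := by
    rw [hc2d, hc3d]; exact Real.rpow_lt_rpow hμ2.le h23 hsi
  have hc3c : c3 < c := by
    rw [hc3d, hcd]; exact Real.rpow_lt_rpow hμ3.le h3 hsi
  -- η
  obtain ⟨η, hηd⟩ : ∃ η : ℝ, η = c / c3 - 1 := ⟨_, rfl⟩
  have hη : 0 < η := by
    rw [hηd]
    have : 1 < c / c3 := (one_lt_div hc3).2 hc3c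
    linarith
  have hηc : (1 + η) * c3 = c := by
    rw [hηd]; field_simp; ring
  obtain ⟨C, hCd⟩ : ∃ C : ℝ, C = ((t : ℝ) / μ3) ^ (1 / (s : ℝ)) := ⟨_, rfl⟩
  have ht0 : (0 : ℝ) < t := by
    have : 0 < t := by omega
    exact_mod_cast this
  have hC0 : 0 < C := by rw [hCd]; positivity
  have hCs : C ^ s = (t : ℝ) / μ3 := by
    rw [hCd, one_div]
    exact Real.rpow_inv_natCast_pow (by positivity) (by omega)
  obtain ⟨K1, hK1⟩ : ∃ K1 : ℝ, K1 = (2 * s / c3) ^ 2 := ⟨_, rfl⟩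
  obtain ⟨K2, hK2⟩ : ∃ K2 : ℝ, K2 = (s / (c3 - c2)) ^ 2 := ⟨_, rfl⟩
  obtain ⟨K3, hK3⟩ : ∃ K3 : ℝ, K3 = Kc ^ s * μ2 := ⟨_, rfl⟩
  obtain ⟨K4, hK4⟩ : ∃ K4 : ℝ, K4 = 2 * s / (η * c3) := ⟨_, rfl⟩
  obtain ⟨K5, hK5⟩ : ∃ K5 : ℝ, K5 = Kc * (2 * C / η) * (c2 / μ2) * 2 ^ (s - 1 - k) := ⟨_, rfl⟩
  have hd : 0 < c3 - c2 := by linarith
  have hK1' : 0 ≤ K1 := by rw [hK1]; positivity
  have hK2' : 0 ≤ K2 := by rw [hK2]; positivity
  have hK3' : 0 ≤ K3 := by rw [hK3]; positivity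
  have hK4' : 0 ≤ K4 := by rw [hK4]; positivity
  have hK5' : 0 ≤ K5 := by rw [hK5]; positivity
  obtain ⟨K, hK⟩ : ∃ K : ℝ, K = 1 + s + K1 + K2 + K3 + K4 + K5 := ⟨_, rfl⟩
  refine ⟨K, by rw [hK]; positivity, ?_⟩
  intro α β _ _ R hn hm hcom
  obtain ⟨n, hndef⟩ : ∃ n : ℝ, n = (Fintype.card β : ℝ) := ⟨_, rfl⟩
  obtain ⟨m, hmdef⟩ : ∃ m : ℝ, m = (Fintype.card α : ℝ) := ⟨_, rfl⟩
  rw [← hndef] at hn hm ⊢
  rw [← hmdef] at hm ⊢
  rw [← hcd]
  have hn1 : 1 ≤ n := by linarith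
  have hn0 : 0 < n := by linarith
  have hns : (s : ℝ) ≤ n := by linarith
  obtain ⟨N1, hN1⟩ : ∃ N1 : ℝ, N1 = n ^ (1 - 1 / (s : ℝ)) := ⟨_, rfl⟩
  have hN10 : 0 < N1 := by rw [hN1]; positivity
  have hexp : (1 : ℝ) / 2 ≤ 1 - 1 / (s : ℝ) := by
    have : 1 / (s : ℝ) ≤ 1 / 2 := one_div_le_one_div_of_le (by norm_num) hs2r
    linarith
  have hsq : n ^ ((1 : ℝ) / 2) ≤ N1 := by
    rw [hN1]; exact Real.rpow_le_rpow_of_exponent_le hn1 hexp
  have hbig : ∀ x : ℝ, 0 ≤ x → x ^ 2 ≤ n → x ≤ N1 := by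
    intro x hx hxn
    refine le_trans ?_ hsq
    rw [← Real.sqrt_eq_rpow]
    exact Real.le_sqrt_of_sq_le hxn
  have hN1sq : n ≤ N1 ^ 2 := by
    have h1 : 0 ≤ n ^ ((1 : ℝ) / 2) := by positivity
    have h2 := pow_le_pow_left₀ h1 hsq 2
    rwa [← Real.sqrt_eq_rpow, Real.sq_sqrt hn0.le] at h2
  rw [← hN1] at hm ⊢
  obtain ⟨D2, hD2⟩ : ∃ D2 : ℝ, D2 = c2 * N1 := ⟨_, rfl⟩
  obtain ⟨D3, hD3⟩ : ∃ D3 : ℝ, D3 = c3 * N1 := ⟨_, rfl⟩
  have hD20 : 0 < D2 := by rw [hD2]; positivity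
  have hD30 : 0 < D3 := by rw [hD3]; positivity
  have hD23 : D2 ≤ D3 := by
    rw [hD2, hD3]; exact mul_le_mul_of_nonneg_right hc23.le hN10.le
  have hD2s : D2 ^ s = μ2 * n ^ (s - 1) := by
    rw [hD2, hc2d, hN1]; exact D_pow s μ2 hμ2.le (by omega) n hn0
  have hD3s : D3 ^ s = μ3 * n ^ (s - 1) := by
    rw [hD3, hc3d, hN1]; exact D_pow s μ3 hμ3.le (by omega) n hn0
  have hD3big : (s : ℝ) ≤ D3 / 2 := by
    have h1 : 2 * s / c3 ≤ N1 := hbig _ (by positivity) (by rw [← hK1]; linarith)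
    rw [div_le_iff₀ hc3] at h1
    rw [hD3]
    linarith
  have hD23big : D2 + s ≤ D3 := by
    have h1 : s / (c3 - c2) ≤ N1 := hbig _ (by positivity) (by rw [← hK2]; linarith)
    rw [div_le_iff₀ hd] at h1
    rw [hD2, hD3]
    linarith
  have hm0 : 0 ≤ m := by rw [hmdef]; positivity
  by_contra hcon
  rw [not_le] at hcon
  obtain ⟨H, hH⟩ : ∃ H : Finset α, H = univ.filter (fun x => D3 ≤ ((row R univ x).card : ℝ)) :=
    ⟨_, rfl⟩
  have hHm : ∀ x ∈ H, D3 ≤ ((row R univ x).card : ℝ) := by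
    intro x hx
    rw [hH, mem_filter] at hx
    exact hx.2
  have hsplit : ∑ x, ((row R univ x).card : ℝ) =
      ∑ x ∈ H, ((row R univ x).card : ℝ) + ∑ x ∈ Hᶜ, ((row R univ x).card : ℝ) :=
    (Finset.sum_add_sum_compl H _).symm
  have hcompl : ∑ x ∈ Hᶜ, ((row R univ x).card : ℝ) ≤ m * D3 := by
    calc ∑ x ∈ Hᶜ, ((row R univ x).card : ℝ) ≤ ∑ _x ∈ Hᶜ, D3 := by
          refine sum_le_sum fun x hx => ?_
          rw [mem_compl, hH, mem_filter] at hx
          push Not at hx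
          exact (hx (mem_univ _)).le
      _ = (Hᶜ.card : ℝ) * D3 := by rw [sum_const, nsmul_eq_mul]
      _ ≤ m * D3 := by
          refine mul_le_mul_of_nonneg_right ?_ hD30.le
          rw [hmdef]
          exact_mod_cast card_le_univ _
  have hHsum : η * (m * D3) ≤ ∑ x ∈ H, ((row R univ x).card : ℝ) := by
    have h1 : c * m * N1 = (1 + η) * (m * D3) := by
      rw [hD3, ← hηc]; ring
    rw [h1, hsplit] at hcon
    linarith
  have hkst' := hkst α β R H s t D3 C (by omega) hD30.le hC0.le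
    (by
      rw [← hndef, mul_pow, hCs, hD3s]
      apply le_of_eq
      field_simp)
    (fun A _ hA => (hcom A hA).le)
  rw [← hndef] at hkst'
  have hmD3 : K4 * c3 * n ≤ m * D3 := by
    have h1 : K4 * N1 ≤ m := by
      refine le_trans (mul_le_mul_of_nonneg_right ?_ hN10.le) hm
      linarith
    calc K4 * c3 * n ≤ K4 * c3 * N1 ^ 2 :=
          mul_le_mul_of_nonneg_left hN1sq (by positivity)
      _ = (K4 * N1) * (c3 * N1) := by ring
      _ ≤ m * D3 := by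
          rw [hD3]
          exact mul_le_mul_of_nonneg_right h1 (by positivity)
  have hsn : (s : ℝ) * n ≤ η / 2 * (m * D3) := by
    have h1 := mul_le_mul_of_nonneg_left hmD3 (show 0 ≤ η / 2 by positivity)
    refine le_trans (le_of_eq ?_) h1
    rw [hK4]
    field_simp
  have hHcard : η / (2 * C) * m ≤ (H.card : ℝ) := by
    have h1 : η / 2 * m * D3 ≤ C * H.card * D3 := by linarith
    have h2 : η / 2 * m ≤ C * H.card := le_of_mul_le_mul_right h1 hD30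
    have h3 : η / (2 * C) * m = (η / 2 * m) / C := by field_simp
    rw [h3, div_le_iff₀ hC0]
    linarith
  obtain ⟨l, hl⟩ : ∃ l : ℕ, l = s - 1 - k := ⟨_, rfl⟩
  have hls : (l : ℝ) ≤ s := by
    have : l ≤ s := by omega
    exact_mod_cast this
  obtain ⟨B, hB, hBc⟩ := hsel α β R H l (D3 / 2) (by linarith)
    (by
      have : (0 : ℝ) < (Fintype.card β : ℝ) := by rw [← hndef]; exact hn0
      exact_mod_cast this)
    (by
      have : (s : ℝ) ≤ (Fintype.card β : ℝ) := by rw [← hndef]; exact hns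
      have : s ≤ Fintype.card β := by exact_mod_cast this
      omega)
    (by
      intro x hx
      have h3 := hHm x hx
      linarith)
  rw [← hndef] at hBc
  have hP : ∀ x ∈ rws R H B, x ∈ H ∧ ∀ y ∈ B, R x y := fun x hx => mem_rws.1 hx
  -- the quotient
  obtain ⟨q, hq⟩ : ∃ q : ℝ, q = n / D2 := ⟨_, rfl⟩
  have hq0 : 0 < q := by rw [hq]; positivity
  have hqD : D2 = μ2 * q ^ (s - 1) := by
    have h1 : D2 ^ s = D2 * D2 ^ (s - 1) := by
      rw [← pow_succ']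
      congr 1
      omega
    rw [hq, div_pow]
    rw [h1] at hD2s
    field_simp
    linarith
  have hqn : 1 / (2 * q) ≤ D3 / 2 / n := by
    have h1 : 1 / (2 * q) = D2 / 2 / n := by
      rw [hq]; field_simp
    rw [h1]
    gcongr
  refine core α β R (rws R H B) (univ \ B) n D2 ?_ hD20 ?_ hD2s ?_ ?_ ?_
  · rw [hndef]
    exact_mod_cast card_le_univ _
  · -- Kc ≤ n / D2
    rw [le_div_iff₀ hD20]
    have h1 : (Kc * D2) ^ s ≤ n ^ s := by
      rw [mul_pow, hD2s]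
      have h2 : n ^ s = n * n ^ (s - 1) := by
        rw [← pow_succ']
        congr 1
        omega
      rw [h2, ← mul_assoc, ← hK3]
      refine mul_le_mul_of_nonneg_right ?_ (by positivity)
      linarith
    exact le_of_pow_le_pow_left₀ (by omega) hn0.le h1
  · -- Kc * (n / D2) ^ k ≤ card P
    rw [← hq]
    have e1 : η / (2 * C) * m * (D3 / 2 / n) ^ l ≤ ((rws R H B).card : ℝ) :=
      (mul_le_mul_of_nonneg_right hHcard (by positivity)).trans hBc
    refine le_trans ?_ e1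
    have e2 : K5 * N1 ≤ m := by
      refine le_trans (mul_le_mul_of_nonneg_right ?_ hN10.le) hm
      linarith
    have e3 : (1 / (2 * q)) ^ l ≤ (D3 / 2 / n) ^ l := pow_le_pow_left₀ (by positivity) hqn l
    have e4 : η / (2 * C) * (K5 * N1) * (1 / (2 * q)) ^ l ≤ η / (2 * C) * m * (D3 / 2 / n) ^ l := by
      gcongr
    refine le_trans (le_of_eq ?_) e4
    have e5 : N1 = μ2 / c2 * q ^ (s - 1) := by
      have : N1 = D2 / c2 := by rw [hD2]; field_simp
      rw [this, hqD]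
      ring
    have e6 : q ^ (s - 1) = q ^ k * q ^ l := by
      rw [← pow_add]
      congr 1
      omega
    rw [e5, e6, hK5, ← hl, one_div, inv_pow, mul_pow]
    field_simp
  · intro x hx
    obtain ⟨hxW, hxB⟩ := hP x hx
    have hsub : B ⊆ row R univ x := by
      intro y hy
      unfold row
      exact mem_filter.2 ⟨mem_univ _, hxB y hy⟩
    have heq : row R (univ \ B) x = row R univ x \ B := by
      unfold row
      ext y
      simp only [mem_filter, mem_sdiff, mem_univ, true_and]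
      tauto
    have hcard : ((row R (univ \ B) x).card : ℝ) = ((row R univ x).card : ℝ) - l := by
      rw [heq, card_sdiff_of_subset hsub, Nat.cast_sub (card_le_card hsub), hB]
    rw [hcard]
    have h3 := hHm x hxW
    linarith
  · intro A hA hAs
    have hsub : B ⊆ com R univ A := by
      intro y hy
      exact mem_com.2 ⟨mem_univ _, fun x hx => (hP x (hA hx)).2 y hy⟩
    have heq : com R (univ \ B) A = com R univ A \ B := by
      ext y
      rw [mem_sdiff, mem_com, mem_com, mem_sdiff]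
      tauto
    have h3 := hcom A hAs
    rw [heq, card_sdiff_of_subset hsub, hB]
    omega

end Pool.Agent.N655.ZK
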